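import Pool.Agent.H90.RS.Circ

set_option autoImplicit false

open Ne729cbcb

namespace Pool.Agent.Results.MP_91e769_nt.LinearUpperBound

/-- `solutionCount x` is the count `R(x)` of the frozen statement, for Rosen's greedy
sequence `rosen`. -/
theorem result (x : ℕ) :
    (solutionCount x : ℝ) ≤ Real.pi / 2 * x + Real.sqrt x + 3 ∧ solutionCount x ≤ 2 * x :=
  ⟨Pool.Agent.H90.RS.circ x, (Pool.Agent.H90.RS.main x).2⟩

end Pool.Agent.Results.MP_91e769_nt.LinearUpperBound
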